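import Pool.Agent.KO.Base
import Pool.Agent.KO.S.Defs

/-!
# The flip chart (data) and the space `X`
-/

set_option autoImplicit false

namespace Pool.Agent.KO

open Set Filter Topology

/-- The flip chart: an analytic map from `Dom ρ` to the cone, equivariant, an isomorphism onto a
neighbourhood of `Γ` where `(z, w) ≠ 0`. `Φ q = (z, U, w, X, Y, T)`. -/
structure Flip where
  ρ : ℝ
  ρ_pos : 0 < ρ
  Φ : (Fin 5 → ℂ) → (Fin 6 → ℂ)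
  Φz : ∀ q, Φ q 0 = q 3
  Φw : ∀ q, Φ q 2 = q 4
  an : ∀ i, AnalyticOnNhd ℂ (fun q => Φ q i) (Dom ρ)
  Φact : ∀ l : ℂ, l ≠ 0 → ∀ q ∈ Dom ρ, Φ (act' l q) = act l (Φ q)
  Φeq : ∀ q ∈ Dom ρ, G (Φ q) = 0
  Φgam : ∀ q ∈ Dom ρ, (q 3 ≠ 0 ∨ q 4 ≠ 0) → (Φ q ∈ Gam ↔ q 0 = 0 ∧ q 1 = 0 ∧ q 2 = 0)
  /-- the values at `z = 0` -/
  Φ0 : ∀ q ∈ Dom ρ, q 3 = 0 → Φ q 1 = -q 0 * q 4 ∧ Φ q 3 = -q 1 * q 4 ^ 4 / 3 ∧
    Φ q 4 = -q 2 * q 4 ^ 6 / 2 ∧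
    Φ q 5 = (q 1 ^ 3 / 27 - q 2 ^ 2 / 4) * q 4 - q 0 ^ 12 * q 4 ^ 2
  small : ∀ q ∈ Dom ρ, ‖Φ q 5‖ < 1
  inj : ∀ q ∈ Dom ρ, ∀ q' ∈ Dom ρ, (q 3 ≠ 0 ∨ q 4 ≠ 0) → Φ q = Φ q' → q = q'
  inv : ∀ q ∈ Dom ρ, (q 3 ≠ 0 ∨ q 4 ≠ 0) → ∃ Ψ : (Fin 6 → ℂ) → (Fin 5 → ℂ),
    AnalyticAt ℂ Ψ (Φ q) ∧ Ψ (Φ q) = q ∧ (∀ᶠ q' in 𝓝 q, Ψ (Φ q') = q') ∧
      ∀ᶠ p in 𝓝 (Φ q), G p = 0 → Φ (Ψ p) = p
  /-- `∂T/∂z = A₁` and `∂T/∂w = A₂³/27 - A₃²/4` along `z = w = 0` -/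
  dT : ∀ q, q 3 = 0 → q 4 = 0 → HasFDerivAt (fun q => Φ q 5)
    (q 0 • ContinuousLinearMap.proj (R := ℂ) (φ := fun _ : Fin 5 => ℂ) 3 +
      (q 1 ^ 3 / 27 - q 2 ^ 2 / 4) •
        ContinuousLinearMap.proj (R := ℂ) (φ := fun _ : Fin 5 => ℂ) 4) q
  /-- the Jacobian of `(U, X, Y)` with respect to `A` -/
  jac : ∀ q ∈ Dom ρ, Matrix.det (fun i j : Fin 3 => fderiv ℂ (fun q => Φ q (![1, 3, 4] i)) q
    (Pi.single (![0, 1, 2] j) 1)) = -q 4 ^ 11 / 6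
  /-- the Jacobian of `(T, U, X)` with respect to `A` -/
  jacT : ∀ q ∈ Dom ρ, Matrix.det (fun i j : Fin 3 => fderiv ℂ (fun q => Φ q (![5, 1, 3] i)) q
    (Pi.single (![0, 1, 2] j) 1)) = Φ q 4 / 3
  /-- the closed tubes around `Γ` are closed -/
  closed : ∀ ε, 0 < ε → ε < ρ → ∀ p : Fin 6 → ℂ, G p = 0 → (∃ i : Fin 6, i ≠ 5 ∧ p i ≠ 0) →
    p ∈ closure {p' | ∃ q, nA q * nZ q ≤ ε ∧ (q 3 ≠ 0 ∨ q 4 ≠ 0) ∧ Φ q = p'} →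
    ∃ q, nA q * nZ q ≤ ε ∧ (q 3 ≠ 0 ∨ q 4 ≠ 0) ∧ Φ q = p

namespace Flip

variable (F : Flip)

/-- The cone of the family without the curve `Γ`. -/
abbrev M1 : Type := {p : Fin 6 → ℂ // p ∈ Cone ∧ p ∉ Gam}

/-- The flip chart near `Π`. -/
abbrev M2 : Type := {q : Fin 5 → ℂ // q ∈ Dom F.ρ ∧ (q 0 ≠ 0 ∨ q 1 ≠ 0 ∨ q 2 ≠ 0)}

/-- The same point of `X`. -/
def rel : M1 ⊕ F.M2 → M1 ⊕ F.M2 → Prop
  | Sum.inl p, Sum.inl p' => ∃ l : ℂ, l ≠ 0 ∧ p'.1 = act l p.1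
  | Sum.inr q, Sum.inr q' => ∃ l : ℂ, l ≠ 0 ∧ q'.1 = act' l q.1
  | Sum.inl p, Sum.inr q => (q.1 3 ≠ 0 ∨ q.1 4 ≠ 0) ∧ ∃ l : ℂ, l ≠ 0 ∧ p.1 = act l (F.Φ q.1)
  | Sum.inr q, Sum.inl p => (q.1 3 ≠ 0 ∨ q.1 4 ≠ 0) ∧ ∃ l : ℂ, l ≠ 0 ∧ p.1 = act l (F.Φ q.1)

/-- The space `X`. -/
def Sp : Type := Quot F.rel

instance : TopologicalSpace F.Sp := inferInstanceAs (TopologicalSpace (Quot F.rel))

/-- The projection from the cone. -/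
def pi1 (p : M1) : F.Sp := Quot.mk _ (Sum.inl p)

/-- The projection from the flip chart. -/
def pi2 (q : F.M2) : F.Sp := Quot.mk _ (Sum.inr q)

/-- The structure sheaf of `X`. -/
def O : Shf F.Sp := fun f x =>
  (∀ p : M1, F.pi1 p = x → ∃ H : (Fin 6 → ℂ) → ℂ, AnalyticAt ℂ H p.1 ∧
    ∀ᶠ p' in 𝓝 p, f (F.pi1 p') = H p'.1) ∧
  (∀ q : F.M2, F.pi2 q = x → ∃ H : (Fin 5 → ℂ) → ℂ, AnalyticAt ℂ H q.1 ∧
    ∀ᶠ q' in 𝓝 q, f (F.pi2 q') = H q'.1)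

theorem act_five (l : ℂ) (p : Fin 6 → ℂ) : act l p 5 = p 5 := by
  simp [act, wgt]

theorem act'_Dom {l : ℂ} (hl : l ≠ 0) {q : Fin 5 → ℂ} {r : ℝ} (hq : q ∈ Dom r) :
    act' l q ∈ Dom r := by
  have h0 : 0 < ‖l‖ := norm_pos_iff.2 hl
  have e0 : ‖act' l q 0‖ = ‖l‖⁻¹ * ‖q 0‖ := by simp [act', wgt', zpow_neg]
  have e1 : ‖act' l q 1‖ = (‖l‖⁻¹) ^ 2 * ‖q 1‖ := by
    have : act' l q 1 = l ^ (-2 : ℤ) * q 1 := rfl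
    rw [this, norm_mul, norm_zpow, zpow_neg, ← inv_zpow]
    norm_cast
  have e2 : ‖act' l q 2‖ = (‖l‖⁻¹) ^ 3 * ‖q 2‖ := by
    have : act' l q 2 = l ^ (-3 : ℤ) * q 2 := rfl
    rw [this, norm_mul, norm_zpow, zpow_neg, ← inv_zpow]
    norm_cast
  have e3 : ‖act' l q 3‖ = ‖l‖ * ‖q 3‖ := by simp [act', wgt']
  have e4 : ‖act' l q 4‖ = ‖l‖ ^ 6 * ‖q 4‖ := by
    have : act' l q 4 = l ^ (6 : ℤ) * q 4 := rfl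
    rw [this, norm_mul, norm_zpow]
    norm_cast
  have hi : 0 ≤ ‖l‖⁻¹ := by positivity
  have n1 : nA (act' l q) = ‖l‖⁻¹ * nA q := by
    unfold nA
    rw [e0, e1, e2, Real.mul_rpow (by positivity) (norm_nonneg _),
      Real.mul_rpow (by positivity) (norm_nonneg _), ← Real.rpow_natCast, ← Real.rpow_natCast,
      ← Real.rpow_mul hi, ← Real.rpow_mul hi, mul_max_of_nonneg _ _ hi, mul_max_of_nonneg _ _ hi]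
    norm_num
  have n2 : nZ (act' l q) = ‖l‖ * nZ q := by
    unfold nZ
    rw [e3, e4, Real.mul_rpow (by positivity) (norm_nonneg _), ← Real.rpow_natCast,
      ← Real.rpow_mul h0.le, mul_max_of_nonneg _ _ h0.le]
    norm_num
  show nA (act' l q) * nZ (act' l q) < r
  rw [n1, n2]
  have : ‖l‖⁻¹ * nA q * (‖l‖ * nZ q) = nA q * nZ q := by
    field_simp
  rw [this]
  exact hq

/-- The projection to the disc. -/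
noncomputable def g : F.Sp → ℂ :=
  Quot.lift (fun m => Sum.elim (fun p : M1 => p.1 5) (fun q : F.M2 => F.Φ q.1 5) m) (by
    rintro (p | q) (p' | q') h
    · obtain ⟨l, -, h⟩ := h
      simp only [Sum.elim_inl]
      rw [h, act_five]
    · obtain ⟨-, l, -, h⟩ := h
      simp only [Sum.elim_inl, Sum.elim_inr]
      rw [h, act_five]
    · obtain ⟨-, l, -, h⟩ := h
      simp only [Sum.elim_inl, Sum.elim_inr]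
      rw [h, act_five]
    · obtain ⟨l, hl, h⟩ := h
      simp only [Sum.elim_inr]
      rw [h, F.Φact l hl q.1 q.2.1, act_five])

end Flip

end Pool.Agent.KO
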