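import Pool.Agent.KO.Final
import Pool.Agent.KO.Xc.Main
import Pool.Agent.KO.Xd.All

/-!
# The `X` side: the final statement follows from `SpEnd`
-/

set_option autoImplicit false

namespace Pool.Agent.KO

/-- Every property of the example, except that its good models do not exist. -/
theorem statement_of_end (hE : SpEnd) : Statement :=
  statement_of (fun F => F.xaFacts) (fun F => F.isSpace) (fun F => F.isMoishezon)
    (fun F => F.canonFib) hE

end Pool.Agent.KO
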